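import Pool.Agent.U136.DS.Stm

/-!
Project DS, part LAT2: a lattice sum. For `t = min θ 3 / 3` one has
`|k| ^ (-b) ≤ 2 ^ b ∏ (1 + |k_i|) ^ (t - 1)`, and the one-dimensional sums are at most
`(2 / t) (R + 1) ^ t`.
-/

set_option autoImplicit false

namespace Pool.Agent.U94.DS

open Finset Pool.Agent.N983.RT Pool.Agent.U136.DS

theorem one_step (t : ℝ) (ht0 : 0 < t) (ht1 : t ≤ 1) (j : ℕ) :
    ((j : ℝ) + 1) ^ (t - 1) ≤ (1 / t) * (((j : ℝ) + 1) ^ t - (j : ℝ) ^ t) := by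
  have hj : (0 : ℝ) < (j : ℝ) + 1 := by positivity
  have h1 : (1 + -(1 / ((j : ℝ) + 1))) ^ t ≤ 1 + t * -(1 / ((j : ℝ) + 1)) := by
    refine rpow_one_add_le_one_add_mul_self ?_ ht0.le ht1
    rw [neg_le_neg_iff, div_le_one hj]
    have : (0 : ℝ) ≤ j := Nat.cast_nonneg j
    linarith
  have h2 : (1 + -(1 / ((j : ℝ) + 1))) = (j : ℝ) / ((j : ℝ) + 1) := by field_simp; ring
  rw [h2, Real.div_rpow (Nat.cast_nonneg j) hj.le, div_le_iff₀ (Real.rpow_pos_of_pos hj t)] at h1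
  have h3 : ((j : ℝ) + 1) ^ (t - 1) = ((j : ℝ) + 1) ^ t * (1 / ((j : ℝ) + 1)) := by
    rw [Real.rpow_sub hj, Real.rpow_one]; ring
  rw [h3]
  have h4 : t * (((j : ℝ) + 1) ^ t * (1 / ((j : ℝ) + 1))) ≤ ((j : ℝ) + 1) ^ t - (j : ℝ) ^ t := by
    nlinarith
  calc ((j : ℝ) + 1) ^ t * (1 / ((j : ℝ) + 1))
      = (1 / t) * (t * (((j : ℝ) + 1) ^ t * (1 / ((j : ℝ) + 1)))) := by field_simp
    _ ≤ _ := by gcongr

theorem sum_nat (t : ℝ) (ht0 : 0 < t) (ht1 : t ≤ 1) (n : ℕ) :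
    ∑ j ∈ range n, ((j : ℝ) + 1) ^ (t - 1) ≤ (1 / t) * (n : ℝ) ^ t := by
  induction n with
  | zero => simp [Real.zero_rpow ht0.ne']
  | succ n ih =>
    rw [sum_range_succ]
    have := one_step t ht0 ht1 n
    push_cast
    nlinarith

/-- the one-dimensional factor -/
noncomputable def fa (t : ℝ) (j : ℤ) : ℝ := (|(j : ℝ)| + 1) ^ (t - 1)

theorem fa_nonneg (t : ℝ) (j : ℤ) : 0 ≤ fa t j := by unfold fa; positivity

theorem sum_int (t : ℝ) (ht0 : 0 < t) (ht1 : t ≤ 1) (R : ℕ) :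
    ∑ j ∈ Icc (-(R : ℤ)) (R : ℤ), fa t j ≤ (2 / t) * ((R : ℝ) + 1) ^ t := by
  have h1 : Icc (-(R : ℤ)) (R : ℤ) ⊆ (range (R + 1)).image (fun n : ℕ => (n : ℤ)) ∪
      (range (R + 1)).image (fun n : ℕ => -(n : ℤ)) := by
    intro j hj
    rw [mem_Icc] at hj
    rw [mem_union, mem_image, mem_image]
    rcases le_total 0 j with h | h
    · left; exact ⟨j.toNat, by rw [mem_range]; omega, by omega⟩
    · right; exact ⟨(-j).toNat, by rw [mem_range]; omega, by omega⟩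
  have h2 : ∑ j ∈ (range (R + 1)).image (fun n : ℕ => (n : ℤ)), fa t j ≤
      (1 / t) * ((R : ℝ) + 1) ^ t := by
    rw [sum_image (fun a _ b _ h => by simpa using h)]
    have := sum_nat t ht0 ht1 (R + 1)
    push_cast at this
    refine le_trans (le_of_eq (sum_congr rfl fun n _ => ?_)) this
    unfold fa
    rw [Int.cast_natCast, abs_of_nonneg (Nat.cast_nonneg n)]
  have h3 : ∑ j ∈ (range (R + 1)).image (fun n : ℕ => -(n : ℤ)), fa t j ≤
      (1 / t) * ((R : ℝ) + 1) ^ t := by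
    rw [sum_image (fun a _ b _ h => by simpa using h)]
    have := sum_nat t ht0 ht1 (R + 1)
    push_cast at this
    refine le_trans (le_of_eq (sum_congr rfl fun n _ => ?_)) this
    unfold fa
    rw [Int.cast_neg, Int.cast_natCast, abs_neg, abs_of_nonneg (Nat.cast_nonneg n)]
  have h4 := sum_union_inter (s₁ := (range (R + 1)).image (fun n : ℕ => (n : ℤ)))
    (s₂ := (range (R + 1)).image (fun n : ℕ => -(n : ℤ))) (f := fa t)
  have h5 : 0 ≤ ∑ j ∈ (range (R + 1)).image (fun n : ℕ => (n : ℤ)) ∩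
      (range (R + 1)).image (fun n : ℕ => -(n : ℤ)), fa t j := sum_nonneg fun j _ => fa_nonneg t j
  have h6 := sum_le_sum_of_subset_of_nonneg (f := fa t) h1 (fun j _ _ => fa_nonneg t j)
  have h7 : (2 / t) * ((R : ℝ) + 1) ^ t =
    (1 / t) * ((R : ℝ) + 1) ^ t + (1 / t) * ((R : ℝ) + 1) ^ t := by ring
  rw [h7]
  linarith

theorem coord_le (k : Wv) (i : Fin 3) : ((k i : ℤ) : ℝ) ^ 2 ≤ nsq k := by
  unfold nsq
  exact single_le_sum (f := fun i => ((k i : ℤ) : ℝ) ^ 2) (fun _ _ => sq_nonneg _) (mem_univ i)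

theorem one_le_nsq (k : Wv) (hk : k ≠ 0) : 1 ≤ nsq k := by
  obtain ⟨i, hi⟩ : ∃ i, k i ≠ 0 := by
    by_contra h
    push Not at h
    exact hk (funext h)
  refine le_trans ?_ (coord_le k i)
  have : (1 : ℤ) ≤ (k i) ^ 2 := by
    have := sq_nonneg (k i)
    have h2 : (k i) ^ 2 ≠ 0 := pow_ne_zero 2 hi
    omega
  exact_mod_cast this

theorem term_le (b t : ℝ) (ht1 : t ≤ 1) (hbt : 1 - b / 3 ≤ t) (k : Wv)
    (hk : k ≠ 0) : nsq k ^ (-b / 2) ≤ (4 : ℝ) ^ (b / 2) * ∏ i, fa t (k i) := by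
  have hn := one_le_nsq k hk
  have h1 : ∀ i, (4 * nsq k) ^ (-b / 6) ≤ fa t (k i) := by
    intro i
    have h2 : (|((k i : ℤ) : ℝ)| + 1) ^ (2 : ℕ) ≤ 4 * nsq k := by
      have h3 := coord_le k i
      have h4 : |((k i : ℤ) : ℝ)| ^ 2 = ((k i : ℤ) : ℝ) ^ 2 := sq_abs _
      nlinarith [sq_nonneg (|((k i : ℤ) : ℝ)| - 1)]
    have h5 : (1 : ℝ) ≤ 4 * nsq k := by linarith
    unfold fa
    calc (4 * nsq k) ^ (-b / 6) ≤ (4 * nsq k) ^ ((t - 1) / 2) :=
          Real.rpow_le_rpow_of_exponent_le h5 (by linarith)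
      _ ≤ ((|((k i : ℤ) : ℝ)| + 1) ^ (2 : ℕ)) ^ ((t - 1) / 2) :=
          Real.rpow_le_rpow_of_nonpos (by positivity) h2 (by linarith)
      _ = (|((k i : ℤ) : ℝ)| + 1) ^ (t - 1) := by
          rw [← Real.rpow_natCast, ← Real.rpow_mul (by positivity)]
          congr 1
          push_cast
          ring
  have h6 : ((4 * nsq k) ^ (-b / 6)) ^ 3 ≤ ∏ i, fa t (k i) := by
    have : ∏ _i : Fin 3, (4 * nsq k) ^ (-b / 6) ≤ ∏ i, fa t (k i) :=
      prod_le_prod (fun i _ => by positivity) (fun i _ => h1 i)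
    simpa using this
  have h7 : nsq k ^ (-b / 2) = (4 : ℝ) ^ (b / 2) * ((4 * nsq k) ^ (-b / 6)) ^ 3 := by
    rw [← Real.rpow_natCast, ← Real.rpow_mul (by positivity)]
    have h8 : -b / 6 * ((3 : ℕ) : ℝ) = -b / 2 := by push_cast; ring
    rw [h8, Real.mul_rpow (by norm_num) (by linarith), ← mul_assoc,
      ← Real.rpow_add (by norm_num)]
    have h9 : b / 2 + -b / 2 = 0 := by ring
    rw [h9, Real.rpow_zero, one_mul]
  rw [h7]
  gcongr

/-- **Part LAT2** -/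
theorem t_LAT2 : S_LAT2 := by
  intro b θ hb hθ hbθ
  set t : ℝ := min θ 3 / 3 with ht
  have ht0 : 0 < t := by
    have : 0 < min θ 3 := lt_min hθ (by norm_num)
    positivity
  have ht1 : t ≤ 1 := by
    have : min θ 3 ≤ 3 := min_le_right _ _
    rw [ht]; linarith
  have hbt : 1 - b / 3 ≤ t := by
    have : 3 - b ≤ min θ 3 := le_min hbθ.le (by linarith)
    rw [ht]; linarith
  have ht3 : t * 3 ≤ θ := by
    have : min θ 3 ≤ θ := min_le_left _ _
    rw [ht]; linarith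
  refine ⟨(4 : ℝ) ^ (b / 2) * (2 / t * 2 ^ t) ^ 3, by positivity, fun R hR => ?_⟩
  have hR1 : (1 : ℝ) ≤ R := by exact_mod_cast hR
  have h1 : ∑ k ∈ cub R, (if k = 0 then 0 else nsq k ^ (-b / 2)) ≤
      ∑ k ∈ cub R, (4 : ℝ) ^ (b / 2) * ∏ i, fa t (k i) := by
    refine sum_le_sum fun k _ => ?_
    split_ifs with hk
    · exact mul_nonneg (by positivity) (prod_nonneg fun i _ => fa_nonneg t _)
    · exact term_le b t ht1 hbt k hk
  have h2 : ∑ k ∈ cub R, ∏ i, fa t (k i) = (∑ j ∈ Icc (-(R : ℤ)) R, fa t j) ^ 3 := by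
    unfold cub
    rw [← prod_univ_sum, prod_const, card_univ, Fintype.card_fin]
  rw [← mul_sum, h2] at h1
  refine h1.trans ?_
  rw [mul_assoc]
  refine mul_le_mul_of_nonneg_left ?_ (by positivity)
  have h3 : ∑ j ∈ Icc (-(R : ℤ)) R, fa t j ≤ 2 / t * 2 ^ t * (R : ℝ) ^ t := by
    refine (sum_int t ht0 ht1 R).trans ?_
    rw [mul_assoc, ← Real.mul_rpow (by norm_num) (by linarith)]
    refine mul_le_mul_of_nonneg_left ?_ (by positivity)
    exact Real.rpow_le_rpow (by positivity) (by linarith) ht0.le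
  calc (∑ j ∈ Icc (-(R : ℤ)) R, fa t j) ^ 3 ≤ (2 / t * 2 ^ t * (R : ℝ) ^ t) ^ 3 :=
        pow_le_pow_left₀ (sum_nonneg fun j _ => fa_nonneg t j) h3 3
    _ = (2 / t * 2 ^ t) ^ 3 * ((R : ℝ) ^ t) ^ 3 := by ring
    _ ≤ (2 / t * 2 ^ t) ^ 3 * (R : ℝ) ^ θ := by
        refine mul_le_mul_of_nonneg_left ?_ (by positivity)
        rw [← Real.rpow_natCast, ← Real.rpow_mul (by linarith)]
        exact Real.rpow_le_rpow_of_exponent_le hR1 (by push_cast; linarith)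

end Pool.Agent.U94.DS
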